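import Pool.Agent.H6.EC.Rig
import Pool.Agent.H13.EC.M1
import Pool.Agent.H62.CJ.L3

/-!
# The rigidity inequality (step 6 of project EC) in the notation of `H13/EC/Def.lean`
-/

set_option autoImplicit false

namespace H6.EC

open Complex ComplexConjugate MeasureTheory Set

open H62.CJ H13.EC

/-! ## The data of `F` -/

lemma pt_eta (z : ℂ) : pt z.re z.im = z := rfl

lemma add_two_pi (z : ℂ) : z + 2 * Real.pi = pt (z.re + 2 * Real.pi) z.im := by
  apply Complex.ext <;> simp [pt]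

theorem dat_of_cls (F : ℂ → ℂ) (M : ℝ) (hF : Cls F M) :
    Dat (deriv F) (P1L F) (deriv (P1L F)) := by
  have hne : ∀ z : ℂ, 0 < z.im → deriv F z ≠ 0 := by
    intro z hz
    have h3 := P2_ne F M hF z.re z.im hz
    rwa [pt_re_im] at h3
  refine ⟨?_, hne, ?_, ?_, ?_, ?_, ?_⟩
  · intro z hz
    have h := P1_h1 F M hF z hz
    have e : P1L F z * deriv F z = deriv (deriv F) z := by
      rw [P1L, div_mul_cancel₀ _ (hne z hz)]
    rw [e]
    exact h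
  · intro z hz
    exact P1_hL F M hF z hz
  · intro z hz
    exact (P1_cL' F M hF).differentiableAt (P1_HP_open.mem_nhds hz)
  · intro z hz
    rw [add_two_pi]
    exact m1_per_F F M hF z.re z.im hz
  · intro z hz
    rw [add_two_pi]
    exact P1_Lper F M hF z.re z.im hz
  · intro z hz
    rw [add_two_pi]
    refine m1_per (P1L F) ?_ z.re z.im hz
    intro w hw
    have h := P1_Lper F M hF w.re w.im hw
    rw [pt_re_im] at h
    rw [← h]
    congr 1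
    apply Complex.ext <;> simp [pt]

lemma fA_eq (F : ℂ → ℂ) (z : ℂ) : fA (P1L F) z = AA F z := by
  rw [fA, P1L, AA]; ring

lemma fG_eq (F : ℂ → ℂ) (z : ℂ) : fG (deriv (P1L F)) z = Gg F z := by
  rw [fG, Gg]; ring

lemma fc_eq (F : ℂ → ℂ) (q κ : ℝ) (z : ℂ) : fc (P1L F) (mz q κ) z = cc F q κ z := by
  rw [fc, cc, fA_eq]; ring

lemma fW_eq (F : ℂ → ℂ) (q κ : ℝ) (z : ℂ) :
    fW (deriv F) (2 - q) (κ - q + 1) z = ((WW F q κ z : ℝ) : ℂ) := by
  rw [fW, WW, ofReal_mul, add_sub_cancel_right]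

lemma ccc_eq (F : ℂ → ℂ) (q κ : ℝ) (z : ℂ) :
    cc F q κ z * conj (cc F q κ z) = ((‖cc F q κ z‖ ^ 2 : ℝ) : ℂ) := by
  rw [mul_conj, normSq_eq_norm_sq]

lemma fQ_eq (F : ℂ → ℂ) (q κ : ℝ) (z : ℂ) :
    fQ (P1L F) (mz q κ) z = ((QQ F q κ z : ℝ) : ℂ) := by
  rw [fQ, fc_eq, ccc_eq, QQ]; push_cast; ring

/-! ## Bounds by compactness -/

lemma exists_bound (Φ : ℂ → ℂ → ℝ → ℝ → ℝ → ℂ)
    (hΦ : Continuous fun t : ℂ × ℂ × ℝ × ℝ × ℝ => Φ t.1 t.2.1 t.2.2.1 t.2.2.2.1 t.2.2.2.2)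
    (K : ℝ) :
    ∃ C : ℝ, 0 ≤ C ∧ ∀ (A G : ℂ) (p ν m : ℝ), ‖A‖ ≤ K → ‖G‖ ≤ K → |p| ≤ 2 → |ν| ≤ 2 → |m| ≤ 2 →
      ‖Φ A G p ν m‖ ≤ C := by
  have hc : IsCompact (Metric.closedBall (0 : ℂ) K ×ˢ (Metric.closedBall (0 : ℂ) K ×ˢ
      (Metric.closedBall (0 : ℝ) 2 ×ˢ (Metric.closedBall (0 : ℝ) 2 ×ˢ
        Metric.closedBall (0 : ℝ) 2)))) :=
    (isCompact_closedBall _ _).prod ((isCompact_closedBall _ _).prod
      ((isCompact_closedBall _ _).prod ((isCompact_closedBall _ _).prod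
        (isCompact_closedBall _ _))))
  obtain ⟨C, hC⟩ := hc.exists_bound_of_continuousOn hΦ.continuousOn
  refine ⟨max C 0, le_max_right _ _, ?_⟩
  intro A G p ν m hA hG hp hν hm
  refine (hC (A, G, p, ν, m) ?_).trans (le_max_left _ _)
  simp only [mem_prod, Metric.mem_closedBall, dist_zero_right, Real.norm_eq_abs]
  exact ⟨hA, hG, hp, hν, hm⟩

lemma fA_const (A z : ℂ) (N : ℂ → ℂ) (h : fA N z = A) : fA (fun _ => A) I = fA N z := by
  rw [h, fA]; simp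

lemma fG_const (G z : ℂ) (N1 : ℂ → ℂ) (h : fG N1 z = G) : fG (fun _ => G) I = fG N1 z := by
  rw [h, fG]; simp

theorem bounds (K : ℝ) : ∃ C : ℝ, 0 ≤ C ∧ ∀ (N N1 : ℂ → ℂ) (z : ℂ) (p ν m : ℝ), ‖fA N z‖ ≤ K →
    ‖fG N1 z‖ ≤ K → |p| ≤ 2 → |ν| ≤ 2 → |m| ≤ 2 →
      ‖fXi N N1 p ν m z‖ ≤ C ∧ ‖conj (fc N m z) * fR N N1 m z‖ ≤ C ∧
        ‖2 * fK N N1 p ν m z * fc N m z * fQ N m z‖ ≤ C := by
  obtain ⟨C1, h10, h1⟩ := exists_bound
    (fun A G p ν m => fXi (fun _ => A) (fun _ => G) p ν m I) (by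
      simp only [fXi, fK, fc, fA, fG]
      fun_prop) K
  obtain ⟨C2, h20, h2⟩ := exists_bound
    (fun A G _ _ m => conj (fc (fun _ => A) m I) * fR (fun _ => A) (fun _ => G) m I) (by
      simp only [fR, fc, fA, fG]
      fun_prop) K
  obtain ⟨C3, h30, h3⟩ := exists_bound
    (fun A G p ν m => 2 * fK (fun _ => A) (fun _ => G) p ν m I * fc (fun _ => A) m I *
      fQ (fun _ => A) m I) (by
      simp only [fK, fQ, fc, fA, fG]
      fun_prop) K
  refine ⟨max C1 (max C2 C3), h10.trans (le_max_left _ _), ?_⟩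
  intro N N1 z p ν m hA hG hp hν hm
  have eA := fA_const _ z N rfl
  have eG := fG_const _ z N1 rfl
  have k1 := h1 (fA N z) (fG N1 z) p ν m hA hG hp hν hm
  have k2 := h2 (fA N z) (fG N1 z) p ν m hA hG hp hν hm
  have k3 := h3 (fA N z) (fG N1 z) p ν m hA hG hp hν hm
  simp only [fXi, fK, fc, eA, eG] at k1
  simp only [fR, fc, eA, eG] at k2
  simp only [fK, fQ, fc, eA, eG] at k3
  refine ⟨?_, ?_, ?_⟩
  · refine le_trans ?_ (le_max_left _ _)
    simpa only [fXi, fK, fc] using k1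
  · refine le_trans ?_ ((le_max_left _ _).trans (le_max_right _ _))
    simpa only [fR, fc] using k2
  · refine le_trans ?_ ((le_max_right _ _).trans (le_max_right _ _))
    simpa only [fK, fQ, fc] using k3

/-! ## Fubini -/

lemma pt_add (x y : ℝ) : (x : ℂ) + y * I = pt x y := (pt_eq x y).symm

lemma rc_integrableC (Ψ : ℂ → ℂ) (hΨ : ContinuousOn Ψ HP) (x0 y1 b : ℝ) (hy1 : 0 < y1) :
    IntegrableOn (fun p : ℝ × ℝ => Ψ (pt p.1 p.2)) (RC x0 y1 b) := by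
  refine ContinuousOn.integrableOn_compact (isCompact_Icc.prod isCompact_Icc) ?_
  refine hΨ.comp P1_pt_cont.continuousOn ?_
  intro p hp
  exact lt_of_lt_of_le hy1 hp.2.1

lemma II_eq (Ψ : ℂ → ℂ) (hΨ : ContinuousOn Ψ HP) (y1 b : ℝ) (hy1 : 0 < y1) (hb : y1 ≤ b) :
    II y1 b Ψ = ∫ p in RC 0 y1 b, Ψ (pt p.1 p.2) := by
  have hi := rc_integrableC Ψ hΨ 0 y1 b hy1
  unfold RC at hi ⊢
  unfold IntegrableOn at hi
  rw [Measure.volume_eq_prod, ← Measure.prod_restrict] at hi ⊢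
  rw [integral_prod _ hi, integral_Icc_eq_integral_Ioc, zero_add, II,
    intervalIntegral.integral_of_le (by positivity)]
  refine setIntegral_congr_fun measurableSet_Ioc fun x _ => ?_
  simp only
  rw [integral_Icc_eq_integral_Ioc, intervalIntegral.integral_of_le hb]
  refine setIntegral_congr_fun measurableSet_Ioc fun y _ => ?_
  simp only [pt_add]

/-! ## The bound for `G` -/

theorem Gg_le (F : ℂ → ℂ) (M : ℝ) (hF : Cls F M) (z : ℂ) (hz : 0 < z.im) (hz1 : z.im ≤ 1 / 4) :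
    ‖Gg F z‖ ≤ 16 := by
  have hR : 0 < z.im / 2 := by linarith
  have hsub : Metric.closedBall z (z.im / 2) ⊆ HP := by
    intro w hw
    rw [Metric.mem_closedBall, dist_eq_norm] at hw
    have h1 := (abs_im_le_norm (w - z)).trans hw
    rw [sub_im, abs_le] at h1
    show 0 < w.im
    linarith [h1.1]
  have hd : DiffContOnCl ℂ (P1L F) (Metric.ball z (z.im / 2)) := by
    refine DifferentiableOn.diffContOnCl ?_
    rw [closure_ball z hR.ne']
    exact (P1_dL F M hF).mono hsub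
  have h2 : ∀ w ∈ Metric.sphere z (z.im / 2), ‖P1L F w‖ ≤ 8 / z.im := by
    intro w hw
    have hw0 : 0 < w.im := hsub (Metric.sphere_subset_closedBall hw)
    rw [mem_sphere_iff_norm] at hw
    have h1 := (abs_im_le_norm (w - z)).trans hw.le
    rw [sub_im, abs_le] at h1
    have h3 := AA_le F M hF w.re w.im hw0 (by linarith [h1.2])
    rw [P1_AA, norm_mul, norm_real, Real.norm_of_nonneg hw0.le, pt_re_im] at h3
    rw [le_div_iff₀ hz]
    have h4 : 0 ≤ ‖P1L F w‖ := norm_nonneg _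
    nlinarith [h1.1]
  have h3 := norm_deriv_le_of_forall_mem_sphere_norm_le hR hd h2
  rw [Gg, norm_mul, norm_pow, norm_real, Real.norm_of_nonneg hz.le]
  have h5 : z.im ^ 2 * ‖deriv (P1L F) z‖ ≤ z.im ^ 2 * (8 / z.im / (z.im / 2)) :=
    mul_le_mul_of_nonneg_left h3 (by positivity)
  refine h5.trans (le_of_eq ?_)
  field_simp
  norm_num

/-! ## The integrated inequality -/

lemma PL_le (F : ℂ → ℂ) (M : ℝ) (hF : Cls F M) (q κ y C : ℝ) (hy : 0 < y) (u : ℂ → ℂ)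
    (hu : ∀ z : ℂ, z.im = y → ‖u z‖ ≤ C * (z.im * WW F q κ z)) :
    ‖PL y u‖ ≤ C * (y ^ (κ - q + 1) * PP F (2 - q) y) := by
  have h1 : ‖PL y u‖ ≤ ∫ x in (0 : ℝ)..2 * Real.pi,
      C * (y ^ (κ - q + 1) * ‖deriv F (pt x y)‖ ^ (2 - q)) := by
    refine intervalIntegral.norm_integral_le_of_norm_le (by positivity) ?_ ?_
    · refine Filter.Eventually.of_forall fun x _ => ?_
      rw [pt_add]
      refine (hu (pt x y) rfl).trans (le_of_eq ?_)
      rw [WW, pt_im, Real.rpow_add_one hy.ne']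
      ring
    · have h2 : Continuous fun x : ℝ => ‖deriv F (pt x y)‖ ^ (2 - q) :=
        P1_slice (fun x r => ‖deriv F (pt x r)‖ ^ (2 - q)) (P1_ucont F M hF (2 - q)) y hy
      exact ((h2.const_mul _).const_mul _).intervalIntegrable _ _
  refine h1.trans (le_of_eq ?_)
  rw [intervalIntegral.integral_const_mul, intervalIntegral.integral_const_mul, PP]

theorem rig_ineq : ∃ C : ℝ, 0 ≤ C ∧ ∀ q κ : ℝ, 9 / 10 ≤ q → q < 1 → 1 / 5 ≤ κ → κ ≤ 3 / 10 →
    ∀ (F : ℂ → ℂ) (M : ℝ), Cls F M → ∀ x0 y1 b : ℝ, 0 < y1 → y1 ≤ b → b ≤ 1 / 4 →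
      (1 - 4 * mz q κ ^ 2) *
          (∫ p in RC x0 y1 b, WW F q κ (pt p.1 p.2) * ‖cc F q κ (pt p.1 p.2)‖ ^ 2) ≤
        C * (∫ p in RC x0 y1 b, WW F q κ (pt p.1 p.2) * |QQ F q κ (pt p.1 p.2)|) +
          C * (y1 ^ (κ - q + 1) * PP F (2 - q) y1 + b ^ (κ - q + 1) * PP F (2 - q) b) := by
  obtain ⟨C, hC0, hC⟩ := bounds 16
  refine ⟨2 * C, by positivity, ?_⟩
  intro q κ hq hq1 hκ hκ1 F M hF x0 y1 b hy1 hb hb1
  have D := dat_of_cls F M hF
  have hHP : ∀ z ∈ HP, 0 < z.im := fun z hz => hz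
  have hb0 : 0 < b := hy1.trans_le hb
  -- bounds
  have hm : |mz q κ| ≤ 2 := by
    have h1 : 0 < κ / q := by positivity
    have h2 : κ / q ≤ 1 := by rw [div_le_one (by linarith)]; linarith
    rw [mz, abs_le]
    constructor <;> linarith
  have hp : |2 - q| ≤ 2 := by rw [abs_le]; constructor <;> linarith
  have hν : |κ - q + 1| ≤ 2 := by rw [abs_le]; constructor <;> linarith
  have hbd : ∀ z : ℂ, 0 < z.im → z.im ≤ 1 / 4 →
      ‖fXi (P1L F) (deriv (P1L F)) (2 - q) (κ - q + 1) (mz q κ) z‖ ≤ C ∧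
      ‖conj (fc (P1L F) (mz q κ) z) * fR (P1L F) (deriv (P1L F)) (mz q κ) z‖ ≤ C ∧
      ‖2 * fK (P1L F) (deriv (P1L F)) (2 - q) (κ - q + 1) (mz q κ) z *
        fc (P1L F) (mz q κ) z * fQ (P1L F) (mz q κ) z‖ ≤ C := by
    intro z hz hz1
    refine hC _ _ z _ _ _ ?_ ?_ hp hν hm
    · rw [fA_eq]
      have := AA_le F M hF z.re z.im hz (by linarith)
      rw [pt_re_im] at this
      linarith
    · rw [fG_eq]
      exact Gg_le F M hF z hz hz1
  have hW0 : ∀ z : ℂ, 0 < z.im → 0 ≤ WW F q κ z := fun z hz =>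
    mul_nonneg (Real.rpow_nonneg hz.le _) (Real.rpow_nonneg (norm_nonneg _) _)
  have hW1 : ∀ z : ℂ, 0 < z.im →
      ‖fW (deriv F) (2 - q) (κ - q + 1) z‖ = WW F q κ z := by
    intro z hz
    rw [fW_eq, norm_real, Real.norm_of_nonneg (hW0 z hz)]
  -- boundary terms
  have hu3 : ∀ z : ℂ, 0 < z.im → z.im ≤ 1 / 4 →
      ‖u3 (deriv F) (P1L F) (deriv (P1L F)) (2 - q) (κ - q + 1) (mz q κ) z‖ ≤
        C * (z.im * WW F q κ z) := by
    intro z hz hz1
    have e : u3 (deriv F) (P1L F) (deriv (P1L F)) (2 - q) (κ - q + 1) (mz q κ) z =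
        (z.im : ℂ) * fW (deriv F) (2 - q) (κ - q + 1) z *
          (conj (fc (P1L F) (mz q κ) z) * fR (P1L F) (deriv (P1L F)) (mz q κ) z) := by
      rw [u3]; ring
    rw [e, norm_mul, norm_mul, hW1 z hz, norm_real, Real.norm_of_nonneg hz.le, mul_comm C]
    exact mul_le_mul_of_nonneg_left (hbd z hz hz1).2.1 (mul_nonneg hz.le (hW0 z hz))
  have hu4 : ∀ z : ℂ, 0 < z.im → z.im ≤ 1 / 4 →
      ‖u4 (deriv F) (P1L F) (deriv (P1L F)) (2 - q) (κ - q + 1) (mz q κ) z‖ ≤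
        C * (z.im * WW F q κ z) := by
    intro z hz hz1
    have e : u4 (deriv F) (P1L F) (deriv (P1L F)) (2 - q) (κ - q + 1) (mz q κ) z =
        (z.im : ℂ) * fW (deriv F) (2 - q) (κ - q + 1) z *
          (2 * fK (P1L F) (deriv (P1L F)) (2 - q) (κ - q + 1) (mz q κ) z *
            fc (P1L F) (mz q κ) z * fQ (P1L F) (mz q κ) z) := by
      rw [u4]; ring
    rw [e, norm_mul, norm_mul, hW1 z hz, norm_real, Real.norm_of_nonneg hz.le, mul_comm C]
    exact mul_le_mul_of_nonneg_left (hbd z hz hz1).2.2 (mul_nonneg hz.le (hW0 z hz))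
  have hPL3 : ∀ y : ℝ, 0 < y → y ≤ 1 / 4 →
      ‖PL y (u3 (deriv F) (P1L F) (deriv (P1L F)) (2 - q) (κ - q + 1) (mz q κ))‖ ≤
        C * (y ^ (κ - q + 1) * PP F (2 - q) y) := fun y hy hy' =>
    PL_le F M hF q κ y C hy _ fun z hz => hu3 z (hz ▸ hy) (hz ▸ hy')
  have hPL4 : ∀ y : ℝ, 0 < y → y ≤ 1 / 4 →
      ‖PL y (u4 (deriv F) (P1L F) (deriv (P1L F)) (2 - q) (κ - q + 1) (mz q κ))‖ ≤
        C * (y ^ (κ - q + 1) * PP F (2 - q) y) := fun y hy hy' =>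
    PL_le F M hF q κ y C hy _ fun z hz => hu4 z (hz ▸ hy) (hz ▸ hy')
  -- the two identities
  have h3 := D.int_u3 (p := 2 - q) (ν := κ - q + 1) (m0 := mz q κ) hy1 hb
  have h4 := D.int_u4 (p := 2 - q) (ν := κ - q + 1) (m0 := mz q κ) hy1 hb
  have cW := D.cW (p := 2 - q) (ν := κ - q + 1) hHP
  have cR := D.cR (m0 := mz q κ) hHP
  have cK := D.cK (p := 2 - q) (ν := κ - q + 1) (m0 := mz q κ) hHP
  have cX := D.cXi (p := 2 - q) (ν := κ - q + 1) (m0 := mz q κ) hHP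
  have cQ := D.cQ (m0 := mz q κ) hHP
  have cC := D.cc (m0 := mz q κ) hHP
  have cWRK : ContinuousOn (fun z => fW (deriv F) (2 - q) (κ - q + 1) z *
      fR (P1L F) (deriv (P1L F)) (mz q κ) z *
      fK (P1L F) (deriv (P1L F)) (2 - q) (κ - q + 1) (mz q κ) z) HP := (cW.mul cR).mul cK
  have cWQX : ContinuousOn (fun z => fW (deriv F) (2 - q) (κ - q + 1) z *
      fQ (P1L F) (mz q κ) z *
      fXi (P1L F) (deriv (P1L F)) (2 - q) (κ - q + 1) (mz q κ) z) HP := (cW.mul cQ).mul cX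
  have cWcc : ContinuousOn (fun z => fW (deriv F) (2 - q) (κ - q + 1) z *
      (fc (P1L F) (mz q κ) z * conj (fc (P1L F) (mz q κ) z))) HP := by fun_prop
  rw [II_eq _ (by fun_prop) y1 b hy1 hb] at h3 h4
  rw [integral_sub (rc_integrableC _ cWRK 0 y1 b hy1)
    ((rc_integrableC _ cWcc 0 y1 b hy1).const_mul _), integral_const_mul] at h3
  rw [integral_add (rc_integrableC _ cWRK 0 y1 b hy1) (rc_integrableC _ cWQX 0 y1 b hy1)] at h4
  -- real forms
  have cWW := cont_WW F M hF q κ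
  have cAA := cont_AA F M hF
  have ccc : ContinuousOn (cc F q κ) HP := by unfold cc; fun_prop
  have cQQ : ContinuousOn (QQ F q κ) HP := by unfold QQ; fun_prop
  have pcc : ∀ x y : ℝ, 0 < y → cc F q κ (pt (x + 2 * Real.pi) y) = cc F q κ (pt x y) := by
    intro x y hy
    rw [cc, cc, per_AA F M hF x y hy]
  have e0 : ∀ G : ℂ → ℝ, ContinuousOn G HP →
      (∀ x y : ℝ, 0 < y → G (pt (x + 2 * Real.pi) y) = G (pt x y)) →
      ∫ p in RC x0 y1 b, G (pt p.1 p.2) = ∫ p in RC 0 y1 b, G (pt p.1 p.2) := by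
    intro G hG hGp
    rw [rc_eq G hG hGp x0 y1 b hy1 hb, rc_eq G hG hGp 0 y1 b hy1 hb]
  have eJ := e0 (fun z => WW F q κ z * ‖cc F q κ z‖ ^ 2) (by fun_prop) (by
    intro x y hy
    simp only [pcc x y hy, per_WW F M hF q κ x y hy])
  have eK := e0 (fun z => WW F q κ z * |QQ F q κ z|) (by fun_prop) (by
    intro x y hy
    simp only [QQ, pcc x y hy, per_WW F M hF q κ x y hy])
  rw [eJ, eK]
  have e1 : (∫ p in RC 0 y1 b, fW (deriv F) (2 - q) (κ - q + 1) (pt p.1 p.2) *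
      (fc (P1L F) (mz q κ) (pt p.1 p.2) * conj (fc (P1L F) (mz q κ) (pt p.1 p.2)))) =
      ((∫ p in RC 0 y1 b, WW F q κ (pt p.1 p.2) * ‖cc F q κ (pt p.1 p.2)‖ ^ 2 : ℝ) : ℂ) := by
    rw [← integral_complex_ofReal]
    refine integral_congr_ae (Filter.Eventually.of_forall fun p => ?_)
    simp only [fW_eq, fc_eq, ccc_eq, ofReal_mul]
  have e2 : ‖∫ p in RC 0 y1 b, fW (deriv F) (2 - q) (κ - q + 1) (pt p.1 p.2) *
      fQ (P1L F) (mz q κ) (pt p.1 p.2) *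
      fXi (P1L F) (deriv (P1L F)) (2 - q) (κ - q + 1) (mz q κ) (pt p.1 p.2)‖ ≤
      C * ∫ p in RC 0 y1 b, WW F q κ (pt p.1 p.2) * |QQ F q κ (pt p.1 p.2)| := by
    rw [← integral_const_mul]
    refine norm_integral_le_of_norm_le ?_ ?_
    · have h6 : ContinuousOn (fun z => WW F q κ z * |QQ F q κ z|) HP := by fun_prop
      exact (rc_integrable _ h6 0 y1 b hy1).const_mul C
    · refine (ae_restrict_iff' (measurableSet_Icc.prod measurableSet_Icc)).2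
        (Filter.Eventually.of_forall fun p hp => ?_)
      have hp0 : 0 < (pt p.1 p.2).im := lt_of_lt_of_le hy1 hp.2.1
      have hp1 : (pt p.1 p.2).im ≤ 1 / 4 := hp.2.2.trans hb1
      rw [norm_mul, norm_mul, hW1 _ hp0, fQ_eq, norm_real, Real.norm_eq_abs, mul_comm C]
      exact mul_le_mul_of_nonneg_left (hbd _ hp0 hp1).1
        (mul_nonneg (hW0 _ hp0) (abs_nonneg _))
  set J : ℝ := ∫ p in RC 0 y1 b, WW F q κ (pt p.1 p.2) * ‖cc F q κ (pt p.1 p.2)‖ ^ 2 with hJ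
  set K0 : ℝ := ∫ p in RC 0 y1 b, WW F q κ (pt p.1 p.2) * |QQ F q κ (pt p.1 p.2)| with hK0
  have hK00 : 0 ≤ K0 := by
    refine setIntegral_nonneg (measurableSet_Icc.prod measurableSet_Icc) fun p hp => ?_
    have hp0 : 0 < (pt p.1 p.2).im := lt_of_lt_of_le hy1 hp.2.1
    exact mul_nonneg (hW0 _ hp0) (abs_nonneg _)
  rw [e1] at h3
  have e3 : (((1 - 4 * mz q κ ^ 2) * J : ℝ) : ℂ) =
      (I * PL y1 (u4 (deriv F) (P1L F) (deriv (P1L F)) (2 - q) (κ - q + 1) (mz q κ)) -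
        I * PL b (u4 (deriv F) (P1L F) (deriv (P1L F)) (2 - q) (κ - q + 1) (mz q κ))) -
      (∫ p in RC 0 y1 b, fW (deriv F) (2 - q) (κ - q + 1) (pt p.1 p.2) *
        fQ (P1L F) (mz q κ) (pt p.1 p.2) *
        fXi (P1L F) (deriv (P1L F)) (2 - q) (κ - q + 1) (mz q κ) (pt p.1 p.2)) -
      (I * PL b (u3 (deriv F) (P1L F) (deriv (P1L F)) (2 - q) (κ - q + 1) (mz q κ)) -
        I * PL y1 (u3 (deriv F) (P1L F) (deriv (P1L F)) (2 - q) (κ - q + 1) (mz q κ))) := by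
    rw [← h3, ← h4]
    push_cast
    ring
  have e4 : (1 - 4 * mz q κ ^ 2) * J ≤ ‖(((1 - 4 * mz q κ ^ 2) * J : ℝ) : ℂ)‖ := by
    rw [norm_real]
    exact Real.le_norm_self _
  refine e4.trans ?_
  rw [e3]
  have hy1' : y1 ≤ 1 / 4 := hb.trans hb1
  have k1 := hPL3 y1 hy1 hy1'
  have k2 := hPL3 b hb0 hb1
  have k3 := hPL4 y1 hy1 hy1'
  have k4 := hPL4 b hb0 hb1
  have hI : ∀ a c : ℂ, ‖I * a - I * c‖ ≤ ‖a‖ + ‖c‖ := by
    intro a c
    refine (norm_sub_le _ _).trans (le_of_eq ?_)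
    rw [norm_mul, norm_mul, norm_I, one_mul, one_mul]
  refine (norm_sub_le _ _).trans ?_
  refine (add_le_add ((norm_sub_le _ _).trans (add_le_add (hI _ _) e2)) (hI _ _)).trans ?_
  have k5 : 0 ≤ C * K0 := mul_nonneg hC0 hK00
  linarith

end H6.EC
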