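import Pool.Agent.H6.EC.Wirt

/-!
# The integrated rigidity identity (step 6 of project EC)
-/

set_option autoImplicit false

namespace H6.EC

open Complex ComplexConjugate MeasureTheory Set

open scoped Real Interval

/-- the closed strip -/
def Strip (y1 b : ℝ) : Set ℂ := {z : ℂ | y1 ≤ z.im ∧ z.im ≤ b}

/-- the iterated integral over the period rectangle -/
noncomputable def II (y1 b : ℝ) (φ : ℂ → ℂ) : ℂ :=
  ∫ x in (0 : ℝ)..2 * π, ∫ y in y1..b, φ (x + y * I)

/-- the integral over a horizontal period -/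
noncomputable def PL (y : ℝ) (φ : ℂ → ℂ) : ℂ := ∫ x in (0 : ℝ)..2 * π, φ (x + y * I)

lemma cont_line {y1 b : ℝ} {φ : ℂ → ℂ} (h : ContinuousOn φ (Strip y1 b)) {y : ℝ} (h1 : y1 ≤ y)
    (h2 : y ≤ b) : Continuous fun x : ℝ => φ (x + y * I) := by
  rw [← continuousOn_univ]
  refine h.comp (f := fun x : ℝ => (x + y * I : ℂ)) (by fun_prop) ?_
  intro x _
  simp [Strip, h1, h2]

theorem int_D {u Du : ℂ → ℂ} {y1 b : ℝ} (h1 : 0 < y1) (hb : y1 ≤ b)
    (hu : ∀ z : ℂ, y1 ≤ z.im → z.im ≤ b → ∃ a, Wd u a (z.im * Du z) z)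
    (hc : ContinuousOn Du (Strip y1 b))
    (hper : ∀ y : ℝ, 0 < y → u ((2 * π : ℝ) + y * I) = u ((0 : ℝ) + y * I)) :
    II y1 b Du = I * PL b u - I * PL y1 u := by
  have hb' : [[y1, b]] = Icc y1 b := uIcc_of_le hb
  have hsub : ([[(0 : ℝ), 2 * π]] ×ℂ [[y1, b]]) ⊆ Strip y1 b := by
    intro z hz
    rw [mem_reProdIm, hb'] at hz
    exact hz.2
  have key : ∀ z ∈ Strip y1 b, I • fderiv ℝ u z 1 - fderiv ℝ u z I = I * Du z := by
    intro z hz
    obtain ⟨a, ha⟩ := hu z hz.1 hz.2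
    have h3 : fderiv ℝ u z = lin (a / (2 * z.im)) (z.im * Du z / (2 * z.im)) := ha.fderiv
    have hz0 : (z.im : ℂ) ≠ 0 := by
      have : 0 < z.im := lt_of_lt_of_le h1 hz.1
      exact_mod_cast this.ne'
    rw [h3]
    simp only [lin_apply, smul_eq_mul, map_one, conj_I]
    field_simp
    ring
  have hd : ∀ z ∈ Strip y1 b, DifferentiableAt ℝ u z := by
    intro z hz
    obtain ⟨a, ha⟩ := hu z hz.1 hz.2
    exact HasFDerivAt.differentiableAt ha
  have hcomp : IsCompact ([[(0 : ℝ), 2 * π]] ×ℂ [[y1, b]]) := isCompact_uIcc.reProdIm isCompact_uIcc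
  have hmain := integral_boundary_rect_of_differentiableOn_real u (((0 : ℝ) : ℂ) + y1 * I)
    (((2 * π : ℝ) : ℂ) + b * I) ?_ ?_
  · simp only [add_re, ofReal_re, mul_re, I_re, mul_zero, ofReal_im, I_im, mul_one, sub_self,
      add_zero, add_im, mul_im, zero_add] at hmain
    have e1 : (∫ y : ℝ in y1..b, u (((2 * π : ℝ) : ℂ) + y * I)) =
        ∫ y : ℝ in y1..b, u (((0 : ℝ) : ℂ) + y * I) := by
      refine intervalIntegral.integral_congr ?_
      intro y hy
      rw [hb'] at hy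
      exact hper y (h1.trans_le hy.1)
    rw [e1] at hmain
    have e2 : (∫ x : ℝ in (0 : ℝ)..2 * π, ∫ y : ℝ in y1..b,
        I • fderiv ℝ u (x + y * I) 1 - fderiv ℝ u (x + y * I) I) = I * II y1 b Du := by
      rw [II, ← intervalIntegral.integral_const_mul]
      refine intervalIntegral.integral_congr ?_
      intro x _
      simp only
      rw [← intervalIntegral.integral_const_mul]
      refine intervalIntegral.integral_congr ?_
      intro y hy
      rw [hb'] at hy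
      refine key _ ?_
      simp only [Strip, mem_ofPred_eq, add_im, ofReal_im, mul_im, ofReal_re, I_im, mul_one, I_re,
        mul_zero, add_zero, zero_add]
      exact ⟨hy.1, hy.2⟩
    rw [e2] at hmain
    have e3 : II y1 b Du = -I * (I * II y1 b Du) := by
      rw [← mul_assoc, neg_mul, I_mul_I]
      ring
    rw [e3, ← hmain]
    simp only [PL]
    ring
  · simp only [add_re, ofReal_re, mul_re, I_re, mul_zero, ofReal_im, I_im, mul_one, sub_self,
      add_zero, add_im, mul_im, zero_add]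
    exact fun z hz => (hd z (hsub hz)).differentiableWithinAt
  · simp only [add_re, ofReal_re, mul_re, I_re, mul_zero, ofReal_im, I_im, mul_one, sub_self,
      add_zero, add_im, mul_im, zero_add]
    have h4 : ContinuousOn (fun z => I * Du z) ([[(0 : ℝ), 2 * π]] ×ℂ [[y1, b]]) :=
      (continuousOn_const.mul hc).mono hsub
    refine (h4.integrableOn_compact hcomp).congr_fun ?_ hcomp.measurableSet
    intro z hz
    exact (key z (hsub hz)).symm

theorem int_d {u Du : ℂ → ℂ} {y1 b : ℝ} (h1 : 0 < y1) (hb : y1 ≤ b)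
    (hu : ∀ z : ℂ, y1 ≤ z.im → z.im ≤ b → ∃ a, Wd u (z.im * Du z) a z)
    (hc : ContinuousOn Du (Strip y1 b))
    (hper : ∀ y : ℝ, 0 < y → u ((2 * π : ℝ) + y * I) = u ((0 : ℝ) + y * I)) :
    II y1 b Du = I * PL y1 u - I * PL b u := by
  have hconj : ∀ (a c : ℝ) (f : ℝ → ℂ), (∫ x in a..c, conj (f x)) = conj (∫ x in a..c, f x) := by
    intro a c f
    exact intervalIntegral.intervalIntegral_conj
  have h := int_D (u := fun z => conj (u z)) (Du := fun z => conj (Du z)) h1 hb ?_ ?_ ?_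
  · have e1 : II y1 b (fun z => conj (Du z)) = conj (II y1 b Du) := by
      simp only [II]
      rw [← hconj]
      congr 1
      funext x
      rw [← hconj]
    have e2 : ∀ y, PL y (fun z => conj (u z)) = conj (PL y u) := by
      intro y
      simp only [PL]
      rw [← hconj]
    rw [e1, e2, e2] at h
    have h' := congrArg conj h
    simp only [map_sub, map_mul, conj_I, conj_conj] at h'
    rw [h']
    ring
  · intro z hz1 hz2
    obtain ⟨a, ha⟩ := hu z hz1 hz2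
    exact ⟨_, ha.conj.congr rfl (by simp)⟩
  · exact continuous_conj.comp_continuousOn hc
  · intro y hy
    simp only [hper y hy]

/-! ## Periodic data and the two identities -/

/-- `g` (the derivative of `F`), its logarithmic derivative `N` and `N1 = N'`, `2 π` periodic on the
upper half plane -/
structure Dat (g N N1 : ℂ → ℂ) : Prop where
  dg : ∀ z : ℂ, 0 < z.im → HasDerivAt g (N z * g z) z
  g0 : ∀ z : ℂ, 0 < z.im → g z ≠ 0
  dN : ∀ z : ℂ, 0 < z.im → HasDerivAt N (N1 z) z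
  dN1 : ∀ z : ℂ, 0 < z.im → DifferentiableAt ℂ N1 z
  pg : ∀ z : ℂ, 0 < z.im → g (z + 2 * π) = g z
  pN : ∀ z : ℂ, 0 < z.im → N (z + 2 * π) = N z
  pN1 : ∀ z : ℂ, 0 < z.im → N1 (z + 2 * π) = N1 z

section

variable {g N N1 : ℂ → ℂ} {p ν m0 y1 b : ℝ}

lemma Dat.cg (h : Dat g N N1) {S : Set ℂ} (hS : ∀ z ∈ S, 0 < z.im) :
    ContinuousOn g S :=
  fun z hz => (h.dg z (hS z hz)).continuousAt.continuousWithinAt

lemma Dat.cN (h : Dat g N N1) {S : Set ℂ} (hS : ∀ z ∈ S, 0 < z.im) :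
    ContinuousOn N S :=
  fun z hz => (h.dN z (hS z hz)).continuousAt.continuousWithinAt

lemma Dat.cN1 (h : Dat g N N1) {S : Set ℂ} (hS : ∀ z ∈ S, 0 < z.im) :
    ContinuousOn N1 S :=
  fun z hz => (h.dN1 z (hS z hz)).continuousAt.continuousWithinAt

lemma Dat.cA (h : Dat g N N1) {S : Set ℂ} (hS : ∀ z ∈ S, 0 < z.im) :
    ContinuousOn (fA N) S := by
  have := h.cN hS
  unfold fA
  fun_prop

lemma Dat.cG (h : Dat g N N1) {S : Set ℂ} (hS : ∀ z ∈ S, 0 < z.im) :
    ContinuousOn (fG N1) S := by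
  have := h.cN1 hS
  unfold fG
  fun_prop

lemma Dat.cc (h : Dat g N N1) {S : Set ℂ} (hS : ∀ z ∈ S, 0 < z.im) :
    ContinuousOn (fc N m0) S := by
  have := h.cA hS
  unfold fc
  fun_prop

lemma Dat.cW (h : Dat g N N1) {S : Set ℂ} (hS : ∀ z ∈ S, 0 < z.im) :
    ContinuousOn (fW g p ν) S := by
  have h2 := h.cg hS
  unfold fW
  refine ContinuousOn.mul ?_ ?_
  · refine continuous_ofReal.comp_continuousOn ?_
    refine ContinuousOn.rpow_const (by fun_prop) ?_
    intro z hz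
    exact Or.inl (hS z hz).ne'
  · refine continuous_ofReal.comp_continuousOn ?_
    refine ContinuousOn.rpow_const (by fun_prop) ?_
    intro z hz
    exact Or.inl (norm_ne_zero_iff.2 (h.g0 z (hS z hz)))

lemma Dat.cQ (h : Dat g N N1) {S : Set ℂ} (hS : ∀ z ∈ S, 0 < z.im) :
    ContinuousOn (fQ N m0) S := by
  have := h.cc (m0 := m0) hS
  unfold fQ
  fun_prop

lemma Dat.cR (h : Dat g N N1) {S : Set ℂ} (hS : ∀ z ∈ S, 0 < z.im) :
    ContinuousOn (fR N N1 m0) S := by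
  have := h.cc (m0 := m0) hS
  have := h.cG hS
  unfold fR
  fun_prop

lemma Dat.cK (h : Dat g N N1) {S : Set ℂ} (hS : ∀ z ∈ S, 0 < z.im) :
    ContinuousOn (fK N N1 p ν m0) S := by
  have := h.cc (m0 := m0) hS
  have := h.cG hS
  have := h.cA hS
  unfold fK
  fun_prop

lemma Dat.cXi (h : Dat g N N1) {S : Set ℂ} (hS : ∀ z ∈ S, 0 < z.im) :
    ContinuousOn (fXi N N1 p ν m0) S := by
  have := h.cc (m0 := m0) hS
  have := h.cG hS
  have := h.cA hS
  have := h.cK (p := p) (ν := ν) (m0 := m0) hS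
  unfold fXi
  fun_prop

lemma per_pt (y : ℝ) : (((2 * π : ℝ) : ℂ) + y * I) = (((0 : ℝ) : ℂ) + y * I) + 2 * π := by
  push_cast; ring

lemma im_per (z : ℂ) : (z + 2 * π).im = z.im := by
  have : (2 * (π : ℂ)).im = 0 := by
    have : (2 * (π : ℂ)) = ((2 * π : ℝ) : ℂ) := by push_cast; ring
    rw [this]; exact ofReal_im _
  rw [add_im, this, add_zero]

lemma Dat.pA (h : Dat g N N1) {z : ℂ} (hz : 0 < z.im) : fA N (z + 2 * π) = fA N z := by
  rw [fA, fA, im_per, h.pN z hz]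

lemma Dat.pG (h : Dat g N N1) {z : ℂ} (hz : 0 < z.im) : fG N1 (z + 2 * π) = fG N1 z := by
  rw [fG, fG, im_per, h.pN1 z hz]

lemma Dat.pW (h : Dat g N N1) {z : ℂ} (hz : 0 < z.im) : fW g p ν (z + 2 * π) = fW g p ν z := by
  rw [fW, fW, im_per, h.pg z hz]

lemma Dat.pc (h : Dat g N N1) {z : ℂ} (hz : 0 < z.im) : fc N m0 (z + 2 * π) = fc N m0 z := by
  rw [fc, fc, h.pA hz]

lemma Dat.pQ (h : Dat g N N1) {z : ℂ} (hz : 0 < z.im) : fQ N m0 (z + 2 * π) = fQ N m0 z := by
  rw [fQ, fQ, h.pc hz]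

lemma Dat.pR (h : Dat g N N1) {z : ℂ} (hz : 0 < z.im) :
    fR N N1 m0 (z + 2 * π) = fR N N1 m0 z := by
  rw [fR, fR, h.pc hz, h.pG hz]

lemma Dat.pK (h : Dat g N N1) {z : ℂ} (hz : 0 < z.im) :
    fK N N1 p ν m0 (z + 2 * π) = fK N N1 p ν m0 z := by
  rw [fK, fK, h.pc hz, h.pG hz, h.pA hz]

/-- integrated identity 1 for `u3` -/
theorem Dat.int_u3 (h : Dat g N N1) (h1 : 0 < y1) (hb : y1 ≤ b) :
    II y1 b (fun z => fW g p ν z * fR N N1 m0 z * fK N N1 p ν m0 z -
        (1 - 4 * m0 ^ 2) * (fW g p ν z * (fc N m0 z * conj (fc N m0 z)))) =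
      I * PL b (u3 g N N1 p ν m0) - I * PL y1 (u3 g N N1 p ν m0) := by
  refine int_D h1 hb ?_ ?_ ?_
  · intro z hz1 _
    have hz : 0 < z.im := h1.trans_le hz1
    exact Wd_u3 hz (h.dg z hz) (h.g0 z hz) (h.dN z hz) (h.dN1 z hz).hasDerivAt
  · have hS : ∀ z ∈ Strip y1 b, 0 < z.im := fun z hz => h1.trans_le hz.1
    have c1 := h.cc (m0 := m0) hS
    have c2 := h.cW (p := p) (ν := ν) hS
    have c3 := h.cK (p := p) (ν := ν) (m0 := m0) hS
    have c4 := h.cR (m0 := m0) hS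
    fun_prop
  · intro y hy
    rw [per_pt]
    have hz : 0 < ((((0 : ℝ) : ℂ) + y * I)).im := by simpa using hy
    simp only [u3, im_per, h.pW hz, h.pc hz, h.pR hz]

/-- integrated identity 2 for `u4` -/
theorem Dat.int_u4 (h : Dat g N N1) (h1 : 0 < y1) (hb : y1 ≤ b) :
    II y1 b (fun z => fW g p ν z * fR N N1 m0 z * fK N N1 p ν m0 z +
        fW g p ν z * fQ N m0 z * fXi N N1 p ν m0 z) =
      I * PL y1 (u4 g N N1 p ν m0) - I * PL b (u4 g N N1 p ν m0) := by
  refine int_d h1 hb ?_ ?_ ?_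
  · intro z hz1 _
    have hz : 0 < z.im := h1.trans_le hz1
    exact Wd_u4 hz (h.dg z hz) (h.g0 z hz) (h.dN z hz) (h.dN1 z hz).hasDerivAt
  · have hS : ∀ z ∈ Strip y1 b, 0 < z.im := fun z hz => h1.trans_le hz.1
    have c1 := h.cQ (m0 := m0) hS
    have c2 := h.cW (p := p) (ν := ν) hS
    have c3 := h.cK (p := p) (ν := ν) (m0 := m0) hS
    have c4 := h.cR (m0 := m0) hS
    have c5 := h.cXi (p := p) (ν := ν) (m0 := m0) hS
    fun_prop
  · intro y hy
    rw [per_pt]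
    have hz : 0 < ((((0 : ℝ) : ℂ) + y * I)).im := by simpa using hy
    simp only [u4, im_per, h.pW hz, h.pc hz, h.pQ hz, h.pK hz]

end

end H6.EC
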