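import Mathlib

/-!
# Wirtinger calculus for the rigidity identity (step 6 of project EC)

`Wt u a b z` : `u` is real differentiable at `z` with differential `v ↦ a v + b conj v`.
-/

set_option autoImplicit false

namespace H6.EC

open Complex ComplexConjugate

lemma conj_two : (conj (2 : ℂ)) = 2 := by
  have := conj_ofReal 2
  push_cast at this
  exact this

/-- the real linear map `v ↦ a v + b conj v` -/
noncomputable def lin (a b : ℂ) : ℂ →L[ℝ] ℂ :=
  a • (ContinuousLinearMap.id ℝ ℂ) + b • (conjCLE : ℂ →L[ℝ] ℂ)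

@[simp] lemma lin_apply (a b v : ℂ) : lin a b v = a * v + b * conj v := by
  simp [lin]

/-- `u` is real differentiable at `z`, with `d/dz = a` and `d/dzbar = b` -/
def Wt (u : ℂ → ℂ) (a b : ℂ) (z : ℂ) : Prop := HasFDerivAt u (lin a b) z

lemma Wt.congr {u : ℂ → ℂ} {a b a' b' z : ℂ} (h : Wt u a b z) (ha : a = a') (hb : b = b') :
    Wt u a' b' z := by
  subst ha; subst hb; exact h

lemma Wt.continuousAt {u : ℂ → ℂ} {a b z : ℂ} (h : Wt u a b z) : ContinuousAt u z :=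
  HasFDerivAt.continuousAt h

lemma Wt.of_deriv {u : ℂ → ℂ} {u' z : ℂ} (h : HasDerivAt u u' z) : Wt u u' 0 z := by
  have h1 := h.hasFDerivAt.restrictScalars ℝ
  refine h1.congr_fderiv ?_
  ext v; simp [mul_comm]

lemma Wt.const (c z : ℂ) : Wt (fun _ => c) 0 0 z :=
  (Wt.of_deriv (hasDerivAt_const z c)).congr rfl rfl

lemma Wt.conj {u : ℂ → ℂ} {a b z : ℂ} (h : Wt u a b z) :
    Wt (fun z => conj (u z)) (conj b) (conj a) z := by
  have h1 : HasFDerivAt (fun w : ℂ => conj w) (conjCLE : ℂ →L[ℝ] ℂ) (u z) :=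
    conjCLE.hasFDerivAt
  have h2 := h1.comp z (show HasFDerivAt u (lin a b) z from h)
  refine h2.congr_fderiv ?_
  ext v; simp [add_comm]

lemma Wt.add {u v : ℂ → ℂ} {a b a' b' z : ℂ} (h : Wt u a b z) (h' : Wt v a' b' z) :
    Wt (fun z => u z + v z) (a + a') (b + b') z := by
  have h2 := (show HasFDerivAt u (lin a b) z from h).add (show HasFDerivAt v (lin a' b') z from h')
  refine h2.congr_fderiv ?_
  ext w; simp; ring

lemma Wt.sub {u v : ℂ → ℂ} {a b a' b' z : ℂ} (h : Wt u a b z) (h' : Wt v a' b' z) :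
    Wt (fun z => u z - v z) (a - a') (b - b') z := by
  have h2 := (show HasFDerivAt u (lin a b) z from h).sub (show HasFDerivAt v (lin a' b') z from h')
  refine h2.congr_fderiv ?_
  ext w; simp; ring

lemma Wt.mul {u v : ℂ → ℂ} {a b a' b' z : ℂ} (h : Wt u a b z) (h' : Wt v a' b' z) :
    Wt (fun z => u z * v z) (a * v z + u z * a') (b * v z + u z * b') z := by
  have h2 := (show HasFDerivAt u (lin a b) z from h).mul (show HasFDerivAt v (lin a' b') z from h')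
  refine h2.congr_fderiv ?_
  ext w; simp; ring

lemma Wt.const_mul {u : ℂ → ℂ} {a b z : ℂ} (c : ℂ) (h : Wt u a b z) :
    Wt (fun z => c * u z) (c * a) (c * b) z :=
  ((Wt.const c z).mul h).congr (by ring) (by ring)

/-- real function of a real variable composed with a real valued function -/
lemma Wt.comp_re {ρ : ℝ → ℝ} {ρ' : ℝ} {v : ℂ → ℝ} {L : ℂ →L[ℝ] ℝ} {a b z : ℂ}
    (hv : HasFDerivAt v L z) (hL : ∀ w, ((L w : ℝ) : ℂ) = a * w + b * conj w)
    (hρ : HasDerivAt ρ ρ' (v z)) :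
    Wt (fun z => ((ρ (v z) : ℝ) : ℂ)) (ρ' * a) (ρ' * b) z := by
  have h1 : HasFDerivAt (fun z => ρ (v z)) (ρ' • L) z := hρ.comp_hasFDerivAt z hv
  have h2 : HasFDerivAt (fun z => ((ρ (v z) : ℝ) : ℂ)) (ofRealCLM.comp (ρ' • L)) z :=
    ofRealCLM.hasFDerivAt.comp z h1
  refine h2.congr_fderiv ?_
  ext w
  simp only [ContinuousLinearMap.comp_apply, ofRealCLM_apply, smul_apply,
    smul_eq_mul, ofReal_mul, lin_apply, hL]
  ring

lemma Wt.im_rpow (s : ℝ) {z : ℂ} (hz : 0 < z.im) :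
    Wt (fun z => ((z.im ^ s : ℝ) : ℂ)) (((s * z.im ^ (s - 1) : ℝ) : ℂ) * (-I / 2))
      (((s * z.im ^ (s - 1) : ℝ) : ℂ) * (I / 2)) z := by
  refine Wt.comp_re (ρ := fun t => t ^ s) (v := fun z => z.im) (L := imCLM)
    imCLM.hasFDerivAt ?_ (Real.hasDerivAt_rpow_const (Or.inl hz.ne'))
  intro w
  apply Complex.ext
  · simp; ring
  · simp; ring

lemma Wt.im {z : ℂ} : Wt (fun z => ((z.im : ℝ) : ℂ)) (-I / 2) (I / 2) z := by
  have h := Wt.comp_re (ρ := fun t => t) (ρ' := 1) (v := fun z => z.im) (L := imCLM)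
    (a := -I / 2) (b := I / 2) (z := z)
    imCLM.hasFDerivAt ?_ (hasDerivAt_id _)
  · exact h.congr (by simp) (by simp)
  intro w
  apply Complex.ext
  · simp; ring
  · simp; ring

lemma Wt.norm_rpow (p : ℝ) {g : ℂ → ℂ} {z n : ℂ} (hg : HasDerivAt g (n * g z) z)
    (hz : g z ≠ 0) :
    Wt (fun z => ((‖g z‖ ^ p : ℝ) : ℂ)) (((p / 2 * ‖g z‖ ^ p : ℝ) : ℂ) * n)
      (((p / 2 * ‖g z‖ ^ p : ℝ) : ℂ) * conj n) z := by
  have hpos : 0 < normSq (g z) := normSq_pos.2 hz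
  -- `normSq (g z)` is real differentiable
  have h1 : HasFDerivAt g (lin (n * g z) 0) z := Wt.of_deriv hg
  have hre : HasFDerivAt (fun z => (g z).re) (reCLM.comp (lin (n * g z) 0)) z :=
    reCLM.hasFDerivAt.comp z h1
  have him : HasFDerivAt (fun z => (g z).im) (imCLM.comp (lin (n * g z) 0)) z :=
    imCLM.hasFDerivAt.comp z h1
  have hsq := (hre.mul hre).add (him.mul him)
  have h2 := Wt.comp_re (ρ := fun t => t ^ (p / 2)) (ρ' := p / 2 * (normSq (g z)) ^ (p / 2 - 1))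
    (v := fun z => (g z).re * (g z).re + (g z).im * (g z).im)
    (a := n * normSq (g z)) (b := conj n * normSq (g z)) (z := z) hsq ?_ ?_
  · have e1 : (fun z => ((‖g z‖ ^ p : ℝ) : ℂ)) =
        fun z => ((((g z).re * (g z).re + (g z).im * (g z).im) ^ (p / 2) : ℝ) : ℂ) := by
      funext w
      rw [← normSq_apply, normSq_eq_norm_sq, ← Real.rpow_natCast, ← Real.rpow_mul (norm_nonneg _)]
      congr 2
      push_cast; ring
    rw [e1]
    have e2 : p / 2 * (normSq (g z)) ^ (p / 2 - 1) * normSq (g z) = p / 2 * ‖g z‖ ^ p := by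
      rw [mul_assoc, Real.rpow_sub_one hpos.ne', div_mul_cancel₀ _ hpos.ne', normSq_eq_norm_sq,
        ← Real.rpow_natCast, ← Real.rpow_mul (norm_nonneg _)]
      congr 2
      push_cast; ring
    refine h2.congr ?_ ?_
    · rw [← e2]; push_cast; ring
    · rw [← e2]; push_cast; ring
  · intro w
    apply Complex.ext
    · simp [normSq_apply, mul_re, mul_im]; ring
    · simp [normSq_apply, mul_re, mul_im]; ring
  · rw [← normSq_apply]
    exact Real.hasDerivAt_rpow_const (Or.inl hpos.ne')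

/-! ## The scaled operators `d = 2 y d/dz` and `D = 2 y d/dzbar` -/

/-- `d u = 2 y d/dz u = a`, `D u = 2 y d/dzbar u = b` at `z`, `y = Im z` -/
def Wd (u : ℂ → ℂ) (a b : ℂ) (z : ℂ) : Prop := Wt u (a / (2 * z.im)) (b / (2 * z.im)) z

lemma Wd.congr {u : ℂ → ℂ} {a b a' b' z : ℂ} (h : Wd u a b z) (ha : a = a') (hb : b = b') :
    Wd u a' b' z := by
  subst ha; subst hb; exact h

lemma Wd.of_Wt {u : ℂ → ℂ} {a b z : ℂ} (hz : 0 < z.im) (h : Wt u a b z) :
    Wd u (2 * z.im * a) (2 * z.im * b) z := by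
  have h0 : (z.im : ℂ) ≠ 0 := by exact_mod_cast hz.ne'
  exact Wt.congr h (by field_simp) (by field_simp)

lemma Wd.const (c z : ℂ) : Wd (fun _ => c) 0 0 z := (Wt.const c z).congr (by simp) (by simp)

lemma Wd.conj {u : ℂ → ℂ} {a b z : ℂ} (h : Wd u a b z) :
    Wd (fun z => conj (u z)) (conj b) (conj a) z :=
  (Wt.conj h).congr (by simp [conj_two]) (by simp [conj_two])

lemma Wd.add {u v : ℂ → ℂ} {a b a' b' z : ℂ} (h : Wd u a b z) (h' : Wd v a' b' z) :
    Wd (fun z => u z + v z) (a + a') (b + b') z :=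
  (Wt.add h h').congr (by ring) (by ring)

lemma Wd.sub {u v : ℂ → ℂ} {a b a' b' z : ℂ} (h : Wd u a b z) (h' : Wd v a' b' z) :
    Wd (fun z => u z - v z) (a - a') (b - b') z :=
  (Wt.sub h h').congr (by ring) (by ring)

lemma Wd.mul {u v : ℂ → ℂ} {a b a' b' z : ℂ} (h : Wd u a b z) (h' : Wd v a' b' z) :
    Wd (fun z => u z * v z) (a * v z + u z * a') (b * v z + u z * b') z :=
  (Wt.mul h h').congr (by ring) (by ring)

lemma Wd.const_mul {u : ℂ → ℂ} {a b z : ℂ} (c : ℂ) (h : Wd u a b z) :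
    Wd (fun z => c * u z) (c * a) (c * b) z :=
  (Wt.const_mul c h).congr (by ring) (by ring)

lemma Wd.im {z : ℂ} (hz : 0 < z.im) : Wd (fun z => ((z.im : ℝ) : ℂ)) (-I * z.im) (I * z.im) z :=
  (Wd.of_Wt hz Wt.im).congr (by ring) (by ring)

lemma Wd.of_deriv {u : ℂ → ℂ} {u' z : ℂ} (hz : 0 < z.im) (h : HasDerivAt u u' z) :
    Wd u (2 * z.im * u') 0 z :=
  (Wd.of_Wt hz (Wt.of_deriv h)).congr rfl (by simp)

/-! ## The functions of the rigidity identity -/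

/-- `A = y N` -/
noncomputable def fA (N : ℂ → ℂ) (z : ℂ) : ℂ := (z.im : ℂ) * N z

/-- `G = y ^ 2 N'` -/
noncomputable def fG (N1 : ℂ → ℂ) (z : ℂ) : ℂ := (z.im : ℂ) * z.im * N1 z

/-- `W = y ^ (ν - 1) |g| ^ p` -/
noncomputable def fW (g : ℂ → ℂ) (p ν : ℝ) (z : ℂ) : ℂ :=
  ((z.im ^ (ν - 1) : ℝ) : ℂ) * ((‖g z‖ ^ p : ℝ) : ℂ)

/-- `c = A - i m0` -/
noncomputable def fc (N : ℂ → ℂ) (m0 : ℝ) (z : ℂ) : ℂ := fA N z - I * m0

/-- `Q = |c| ^ 2 - 1 / 4` -/
noncomputable def fQ (N : ℂ → ℂ) (m0 : ℝ) (z : ℂ) : ℂ := fc N m0 z * conj (fc N m0 z) - 1 / 4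

/-- `R0 = G - i c - 2 m0 c ^ 2 + m0 / 2` -/
noncomputable def fR (N N1 : ℂ → ℂ) (m0 : ℝ) (z : ℂ) : ℂ :=
  fG N1 z - I * fc N m0 z - 2 * m0 * (fc N m0 z * fc N m0 z) + m0 / 2

/-- `K1 = (p conj A + i (ν + 2)) conj c + 2 conj G + i conj A` -/
noncomputable def fK (N N1 : ℂ → ℂ) (p ν m0 : ℝ) (z : ℂ) : ℂ :=
  (p * conj (fA N z) + I * (ν + 2)) * conj (fc N m0 z) + 2 * conj (fG N1 z) + I * conj (fA N z)

/-- the multiplier `Xi` -/
noncomputable def fXi (N N1 : ℂ → ℂ) (p ν m0 : ℝ) (z : ℂ) : ℂ :=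
  2 * fc N m0 z * fK N N1 p ν m0 z * (p * fA N z - I * (ν - 1)) +
    2 * (fK N N1 p ν m0 z * (2 * fG N1 z - I * fA N z) +
      fc N m0 z * ((p * (-I * conj (fA N z))) * conj (fc N m0 z) +
        (p * conj (fA N z) + I * (ν + 2)) * (-I * conj (fA N z)) +
        2 * (-2 * I * conj (fG N1 z)) + I * (-I * conj (fA N z)))) -
    2 * I * fK N N1 p ν m0 z * fc N m0 z -
    fK N N1 p ν m0 z * (4 * I * fc N m0 z - 4 * fG N1 z - 2 * m0)

section

variable {g N N1 : ℂ → ℂ} {N2 z : ℂ} {p ν m0 : ℝ}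

lemma Wd_fA (hz : 0 < z.im) (hN : HasDerivAt N (N1 z) z) :
    Wd (fA N) (2 * fG N1 z - I * fA N z) (I * fA N z) z :=
  ((Wd.im hz).mul (Wd.of_deriv hz hN)).congr (by simp only [fG, fA]; ring)
    (by simp only [fA]; ring)

lemma Wd_fG (hz : 0 < z.im) (hN1 : HasDerivAt N1 N2 z) :
    Wd (fG N1) (2 * z.im ^ 3 * N2 - 2 * I * fG N1 z) (2 * I * fG N1 z) z :=
  (((Wd.im hz).mul (Wd.im hz)).mul (Wd.of_deriv hz hN1)).congr (by simp only [fG]; ring)
    (by simp only [fG]; ring)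

lemma Wd_fW (hz : 0 < z.im) (hg : HasDerivAt g (N z * g z) z) (hgz : g z ≠ 0) :
    Wd (fW g p ν) (fW g p ν z * (p * fA N z - I * (ν - 1)))
      (fW g p ν z * (p * conj (fA N z) + I * (ν - 1))) z := by
  have h1 := Wd.of_Wt hz (Wt.im_rpow (ν - 1) hz)
  have h2 := Wd.of_Wt hz (Wt.norm_rpow p hg hgz)
  have e : ((z.im ^ (ν - 1 - 1) : ℝ) : ℂ) * z.im = ((z.im ^ (ν - 1) : ℝ) : ℂ) := by
    rw [← ofReal_mul, Real.rpow_sub_one hz.ne', div_mul_cancel₀ _ hz.ne']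
  refine (h1.mul h2).congr ?_ ?_
  · simp only [fW, fA]
    rw [← e]
    push_cast
    ring
  · simp only [fW, fA, map_mul, conj_ofReal]
    rw [← e]
    push_cast
    ring

lemma Wd_fc (hz : 0 < z.im) (hN : HasDerivAt N (N1 z) z) :
    Wd (fc N m0) (2 * fG N1 z - I * fA N z) (I * fA N z) z :=
  ((Wd_fA hz hN).sub (Wd.const (I * m0) z)).congr (by ring) (by ring)

lemma Wd_fcb (hz : 0 < z.im) (hN : HasDerivAt N (N1 z) z) :
    Wd (fun z => conj (fc N m0 z)) (-I * conj (fA N z))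
      (2 * conj (fG N1 z) + I * conj (fA N z)) z :=
  (Wd_fc hz hN).conj.congr (by simp) (by simp [conj_two])

lemma Wd_fQ (hz : 0 < z.im) (hN : HasDerivAt N (N1 z) z) :
    Wd (fQ N m0) ((2 * fG N1 z - I * fA N z) * conj (fc N m0 z) +
        fc N m0 z * (-I * conj (fA N z)))
      ((I * fA N z) * conj (fc N m0 z) + fc N m0 z * (2 * conj (fG N1 z) + I * conj (fA N z))) z :=
  (((Wd_fc hz hN).mul (Wd_fcb hz hN)).sub (Wd.const (1 / 4) z)).congr (by ring) (by ring)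

lemma Wd_fR (hz : 0 < z.im) (hN : HasDerivAt N (N1 z) z) (hN1 : HasDerivAt N1 N2 z) :
    Wd (fR N N1 m0)
      (2 * z.im ^ 3 * N2 - 2 * I * fG N1 z - I * (2 * fG N1 z - I * fA N z) -
        4 * m0 * fc N m0 z * (2 * fG N1 z - I * fA N z))
      (2 * I * fG N1 z + fA N z - 4 * m0 * I * fc N m0 z * fA N z) z := by
  have h := (((Wd_fG hz hN1).sub ((Wd_fc (m0 := m0) hz hN).const_mul I)).sub
    (((Wd_fc (m0 := m0) hz hN).mul (Wd_fc (m0 := m0) hz hN)).const_mul (2 * m0))).add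
      (Wd.const (m0 / 2) z)
  refine h.congr ?_ ?_
  · ring
  · linear_combination (-fA N z) * I_mul_I

lemma Wd_fK (hz : 0 < z.im) (hN : HasDerivAt N (N1 z) z) (hN1 : HasDerivAt N1 N2 z) :
    Wd (fK N N1 p ν m0)
      ((p * (-I * conj (fA N z))) * conj (fc N m0 z) +
        (p * conj (fA N z) + I * (ν + 2)) * (-I * conj (fA N z)) +
        2 * (-2 * I * conj (fG N1 z)) + I * (-I * conj (fA N z)))
      (p * (2 * conj (fG N1 z) + I * conj (fA N z)) * conj (fc N m0 z) +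
        (p * conj (fA N z) + I * (ν + 2)) * (2 * conj (fG N1 z) + I * conj (fA N z)) +
        2 * (2 * z.im ^ 3 * conj N2 + 2 * I * conj (fG N1 z)) +
        I * (2 * conj (fG N1 z) + I * conj (fA N z))) z := by
  have hA := (Wd_fA hz hN).conj
  have hG := (Wd_fG hz hN1).conj
  have h := ((((hA.const_mul p).add (Wd.const (I * (ν + 2)) z)).mul (Wd_fcb (m0 := m0) hz hN)).add
    (hG.const_mul 2)).add (hA.const_mul I)
  refine h.congr ?_ ?_
  · simp only [map_mul, conj_I, conj_two]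
    ring
  · simp only [map_mul, map_sub, map_pow, conj_I, conj_two, conj_ofReal]
    ring

/-- `u3 = y W conj c R0` -/
noncomputable def u3 (g N N1 : ℂ → ℂ) (p ν m0 : ℝ) (z : ℂ) : ℂ :=
  (z.im : ℂ) * fW g p ν z * conj (fc N m0 z) * fR N N1 m0 z

/-- `u4 = 2 y W K1 c Q` -/
noncomputable def u4 (g N N1 : ℂ → ℂ) (p ν m0 : ℝ) (z : ℂ) : ℂ :=
  (z.im : ℂ) * fW g p ν z * (2 * fK N N1 p ν m0 z) * fc N m0 z * fQ N m0 z

lemma conj_fc : conj (fc N m0 z) = conj (fA N z) + I * m0 := by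
  simp [fc]

theorem Wd_u3 (hz : 0 < z.im) (hg : HasDerivAt g (N z * g z) z) (hgz : g z ≠ 0)
    (hN : HasDerivAt N (N1 z) z) (hN1 : HasDerivAt N1 N2 z) :
    ∃ a, Wd (u3 g N N1 p ν m0) a
      (z.im * (fW g p ν z * fR N N1 m0 z * fK N N1 p ν m0 z -
        (1 - 4 * m0 ^ 2) * (fW g p ν z * (fc N m0 z * conj (fc N m0 z))))) z := by
  have h := (((Wd.im hz).mul (Wd_fW (p := p) (ν := ν) hz hg hgz)).mul
    (Wd_fcb (m0 := m0) hz hN)).mul (Wd_fR (m0 := m0) hz hN hN1)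
  refine ⟨_, h.congr rfl ?_⟩
  rw [conj_fc]
  simp only [fK, fR, conj_fc]
  simp only [fc]
  generalize fW g p ν z = W
  generalize conj (fA N z) = Ab
  generalize fA N z = A
  generalize conj (fG N1 z) = Gb
  generalize fG N1 z = G
  ring_nf
  have I5 : I ^ 5 = I := by rw [pow_succ, I_pow_four, one_mul]
  simp only [I_sq, I_pow_three, I_pow_four, I5]
  ring

theorem Wd_u4 (hz : 0 < z.im) (hg : HasDerivAt g (N z * g z) z) (hgz : g z ≠ 0)
    (hN : HasDerivAt N (N1 z) z) (hN1 : HasDerivAt N1 N2 z) :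
    ∃ b, Wd (u4 g N N1 p ν m0)
      (z.im * (fW g p ν z * fR N N1 m0 z * fK N N1 p ν m0 z +
        fW g p ν z * fQ N m0 z * fXi N N1 p ν m0 z)) b z := by
  have h := ((((Wd.im hz).mul (Wd_fW (p := p) (ν := ν) hz hg hgz)).mul
    ((Wd_fK (p := p) (ν := ν) (m0 := m0) hz hN hN1).const_mul 2)).mul
      (Wd_fc (m0 := m0) hz hN)).mul (Wd_fQ (m0 := m0) hz hN)
  refine ⟨_, h.congr ?_ rfl⟩
  simp only [fXi, fR, fQ]
  generalize fK N N1 p ν m0 z = K
  simp only [conj_fc]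
  simp only [fc]
  generalize fW g p ν z = W
  generalize conj (fA N z) = Ab
  generalize fA N z = A
  generalize conj (fG N1 z) = Gb
  generalize fG N1 z = G
  ring_nf
  have I5 : I ^ 5 = I := by rw [pow_succ, I_pow_four, one_mul]
  simp only [I_sq, I_pow_three, I_pow_four, I5]
  ring

end

end H6.EC
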